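import Pool.Agent.K1H65.BX.Core
import Pool.Agent.K1H79.RF.Stm3

/-! # Task U1 of helper79: the statement `S_BOX` -/

set_option autoImplicit false

namespace Pool.Agent.K1H65.BX

theorem t_BOX : Pool.Agent.K1H79.RF.S_BOX := fun n k hn hk C0 hC0 => box_bound n k hn hk C0 hC0

end Pool.Agent.K1H65.BX
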