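import Mathlib

/-! # The number of integers of a number field in a box of side `D^(1/n)` -/

set_option autoImplicit false

namespace Pool.Agent.K1H65.BX

open NumberField Module

variable {L : Type} [Field L] [NumberField L]

/-- the integers whose absolute values are at most `r` -/
def bx (L : Type) [Field L] [NumberField L] (r : ℝ) : Set (𝓞 L) :=
  {x | ∀ v : InfinitePlace L, v (x : L) ≤ r}

lemma bx_finite (r : ℝ) : (bx L r).Finite := by
  have h := NumberField.Embeddings.finite_of_norm_le L ℂ r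
  refine Set.Finite.of_finite_image (f := fun x : 𝓞 L => (x : L)) (h.subset ?_)
    (fun a _ b _ hab => RingOfIntegers.ext hab)
  rintro _ ⟨x, hx, rfl⟩
  refine ⟨x.2, fun φ => ?_⟩
  have := hx (InfinitePlace.mk φ)
  rwa [InfinitePlace.apply] at this

lemma bx_mono {r r' : ℝ} (h : r ≤ r') : bx L r ⊆ bx L r' := fun _ hx v => (hx v).trans h

lemma bx_mul {r r' : ℝ} (hr : 0 ≤ r) {x y : 𝓞 L} (hx : x ∈ bx L r) (hy : y ∈ bx L r') :
    x * y ∈ bx L (r * r') := fun v => by
  have h1 : v ((x * y : 𝓞 L) : L) = v (x : L) * v (y : L) := by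
    rw [← map_mul]; rfl
  rw [h1]
  exact mul_le_mul (hx v) (hy v) (apply_nonneg v _) hr

lemma bx_sub {r : ℝ} {x y : 𝓞 L} (hx : x ∈ bx L r) (hy : y ∈ bx L r) :
    x - y ∈ bx L (2 * r) := fun v => by
  have h0 : ((x - y : 𝓞 L) : L) = (x : L) - (y : L) := rfl
  have h1 : v ((x : L) - (y : L)) ≤ v (x : L) + v (y : L) := by
    have := v.1.sub_le_add (x : L) (y : L)
    exact this
  rw [h0]
  linarith [hx v, hy v]

lemma bx_lt_one {r : ℝ} (hr : r < 1) {x : 𝓞 L} (hx : x ∈ bx L r) : x = 0 := by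
  by_contra h0
  obtain ⟨w⟩ : Nonempty (InfinitePlace L) := inferInstance
  have := InfinitePlace.one_le_of_lt_one (w := w) h0 (fun z _ => lt_of_le_of_lt (hx z) hr)
  linarith [hx w]

lemma bx_smul_inv {m : ℕ} (hm : 1 ≤ m) {r : ℝ} {z : 𝓞 L} (h : (m : 𝓞 L) * z ∈ bx L r) :
    z ∈ bx L (r / m) := fun v => by
  have h1 := h v
  have h2 : (((m : 𝓞 L) * z : 𝓞 L) : L) = (m : L) * (z : L) := by
    push_cast; rfl
  rw [h2, map_mul] at h1
  have h3 : v (m : L) = m := by
    have : v (((m : ℕ) : L)) = ‖((m : ℕ) : ℂ)‖ := by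
      obtain ⟨φ, rfl⟩ := v.2.imp fun φ h => (show InfinitePlace.mk φ = v from Subtype.ext h)
      rw [InfinitePlace.apply, map_natCast]
    rw [this]; simp
  rw [h3] at h1
  have hm0 : (0 : ℝ) < m := by exact_mod_cast hm
  rw [le_div_iff₀ hm0]
  linarith

/-- the span of the integers of the box -/
noncomputable def sp (L : Type) [Field L] [NumberField L] (r : ℝ) : Submodule ℚ L :=
  Submodule.span ℚ ((fun x : 𝓞 L => (x : L)) '' bx L r)

/-- its dimension -/
noncomputable def dm (L : Type) [Field L] [NumberField L] (r : ℝ) : ℕ := finrank ℚ (sp L r)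

lemma dm_le (r : ℝ) : dm L r ≤ finrank ℚ L := Submodule.finrank_le _

/-- (i) the pigeonhole step -/
lemma step (m : ℕ) (hm : 1 ≤ m) (r : ℝ) :
    (bx L r).ncard ≤ m ^ dm L r * (bx L (2 * r / m)).ncard := by
  classical
  have hNZ : NeZero m := ⟨by omega⟩
  -- the group of the integers in the span
  let G : Submodule ℤ (𝓞 L) := Submodule.comap (Algebra.linearMap (𝓞 L) L |>.restrictScalars ℤ)
    ((sp L r).restrictScalars ℤ)
  obtain ⟨d, bG⟩ := Submodule.basisOfPid (RingOfIntegers.basis L) G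
  have hd : d ≤ dm L r := by
    have h1 : LinearIndependent ℤ (fun i : Fin d => ((bG i : 𝓞 L) : L)) := by
      have h2 := bG.linearIndependent
      have h3 : LinearMap.ker ((Algebra.linearMap (𝓞 L) L |>.restrictScalars ℤ).comp G.subtype) = ⊥ := by
        rw [LinearMap.ker_eq_bot]
        intro a b hab
        exact Subtype.ext (RingOfIntegers.ext hab)
      exact h2.map' _ h3
    rw [LinearIndependent.iff_fractionRing ℤ ℚ] at h1
    have h4 : LinearIndependent ℚ (fun i : Fin d =>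
        (⟨((bG i : 𝓞 L) : L), (bG i).2⟩ : sp L r)) :=
      LinearIndependent.of_comp (sp L r).subtype h1
    have := h4.fintype_card_le_finrank
    rw [Fintype.card_fin] at this
    exact this
  -- the classes modulo m
  let F : 𝓞 L → (Fin d → ZMod m) := fun x =>
    if h : x ∈ G then fun i => ((bG.repr ⟨x, h⟩ i : ℤ) : ZMod m) else 0
  have hfin := bx_finite (L := L) r
  have hfin2 := bx_finite (L := L) (2 * r / m)
  have hG : ∀ x ∈ bx L r, x ∈ G := fun x hx => Submodule.subset_span ⟨x, hx, rfl⟩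
  have key : hfin.toFinset.card ≤ (bx L (2 * r / m)).ncard * (hfin.toFinset.image F).card := by
    refine Finset.card_le_mul_card_image _ _ fun b hb => ?_
    rw [Finset.mem_image] at hb
    obtain ⟨x₀, hx₀, hb⟩ := hb
    rw [Set.Finite.mem_toFinset] at hx₀
    have hex : ∀ x ∈ bx L r, F x = b → ∃ z : 𝓞 L, x - x₀ = m * z ∧ z ∈ bx L (2 * r / m) := by
      intro x hx hxb
      have hxG := hG x hx
      have hx0G := hG x₀ hx₀
      have h1 : ∀ i, ((bG.repr ⟨x, hxG⟩ i : ℤ) : ZMod m) = ((bG.repr ⟨x₀, hx0G⟩ i : ℤ) : ZMod m) := by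
        intro i
        have h2 := congrFun (hxb.trans hb.symm) i
        simp only [F, dif_pos hxG, dif_pos hx0G] at h2
        exact h2
      have h2 : ∀ i, ∃ c : ℤ, bG.repr ⟨x, hxG⟩ i - bG.repr ⟨x₀, hx0G⟩ i = m * c := by
        intro i
        have h3 := (ZMod.intCast_eq_intCast_iff_dvd_sub _ _ _).1 (h1 i).symm
        obtain ⟨c, hc⟩ := h3
        exact ⟨c, hc⟩
      choose c hc using h2
      let z : G := ∑ i, c i • bG i
      have hz : (⟨x, hxG⟩ : G) - ⟨x₀, hx0G⟩ = (m : ℤ) • z := by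
        apply bG.repr.injective
        ext i
        rw [map_sub, Finsupp.sub_apply, hc i, map_smul, Finsupp.smul_apply]
        simp only [z, map_sum, map_smul, Basis.repr_self, Finsupp.coe_finsetSum, Finset.sum_apply,
          Finsupp.smul_apply, Finsupp.single_apply]
        simp
      have hz' : x - x₀ = m * (z : 𝓞 L) := by
        have := congrArg (fun g : G => (g : 𝓞 L)) hz
        simp only [Submodule.coe_sub, Submodule.coe_smul] at this
        rw [this]
        simp
      refine ⟨z, hz', bx_smul_inv hm ?_⟩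
      rw [← hz']
      exact bx_sub hx hx₀
    -- the injection
    let E : 𝓞 L → 𝓞 L := fun x => if h : ∃ z : 𝓞 L, x - x₀ = m * z ∧ z ∈ bx L (2 * r / m) then
      h.choose else 0
    rw [Set.ncard_eq_toFinset_card _ hfin2]
    refine Finset.card_le_card_of_injOn E ?_ ?_
    · intro x hx
      rw [Finset.mem_coe, Finset.mem_filter, Set.Finite.mem_toFinset] at hx
      have h := hex x hx.1 hx.2
      rw [Finset.mem_coe, Set.Finite.mem_toFinset]
      simp only [E, dif_pos h]
      exact h.choose_spec.2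
    · intro x hx y hy hxy
      rw [Finset.mem_coe, Finset.mem_filter, Set.Finite.mem_toFinset] at hx hy
      have h := hex x hx.1 hx.2
      have h' := hex y hy.1 hy.2
      simp only [E, dif_pos h, dif_pos h'] at hxy
      have h1 := h.choose_spec.1
      have h2 := h'.choose_spec.1
      rw [hxy] at h1
      have h3 : x - x₀ = y - x₀ := h1.trans h2.symm
      exact sub_left_injective h3
  rw [Set.ncard_eq_toFinset_card _ hfin]
  refine key.trans ?_
  rw [mul_comm]
  refine Nat.mul_le_mul_right _ ?_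
  calc (hfin.toFinset.image F).card ≤ Fintype.card (Fin d → ZMod m) := Finset.card_le_univ _
    _ = m ^ d := by rw [Fintype.card_fun, ZMod.card, Fintype.card_fin]
    _ ≤ m ^ dm L r := Nat.pow_le_pow_right (by omega) hd

/-- (ii) duality -/
lemma dual {r r' R : ℝ} (hr : 0 ≤ r) (hR : r * r' ≤ R) (h : sp L R ≠ ⊤) :
    dm L r + dm L r' ≤ finrank ℚ L := by
  obtain ⟨φ, hφ0, hφ⟩ := Submodule.exists_le_ker_of_lt_top (sp L R) (lt_top_iff_ne_top.2 h)
  let T : L →ₗ[ℚ] Module.Dual ℚ L := (LinearMap.mul ℚ L).compr₂ φ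
  have hT : ∀ x y, T x y = φ (x * y) := fun x y => rfl
  have hinj : Function.Injective T := by
    rw [← LinearMap.ker_eq_bot, LinearMap.ker_eq_bot']
    intro x hx
    by_contra hx0
    apply hφ0
    ext y
    have h1 := LinearMap.congr_fun hx (x⁻¹ * y)
    rw [hT, mul_inv_cancel_left₀ hx0] at h1
    exact h1
  have hle : (sp L r).map T ≤ (sp L r').dualAnnihilator := by
    rw [Submodule.map_le_iff_le_comap, sp, Submodule.span_le]
    rintro _ ⟨x, hx, rfl⟩
    rw [SetLike.mem_coe, Submodule.mem_comap, Submodule.mem_dualAnnihilator]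
    have h2 : sp L r' ≤ LinearMap.ker (T (x : L)) := by
      rw [sp, Submodule.span_le]
      rintro _ ⟨y, hy, rfl⟩
      rw [SetLike.mem_coe, LinearMap.mem_ker, hT]
      have h3 : (x : L) * (y : L) ∈ sp L R :=
        Submodule.subset_span ⟨x * y, bx_mono hR (bx_mul hr hx hy), rfl⟩
      exact hφ h3
    intro w hw
    exact h2 hw
  have h1 : finrank ℚ ((sp L r).map T) = finrank ℚ (sp L r) :=
    (Submodule.equivMapOfInjective T hinj _).finrank_eq.symm
  have h2 := Submodule.finrank_mono hle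
  have h3 := Subspace.finrank_add_finrank_dualAnnihilator_eq (sp L r')
  unfold dm
  omega


/-- case A: the integers of the box span `L` -/
lemma caseA {n : ℕ} (hn : finrank ℚ L = n) (hn1 : 1 ≤ n) {R : ℝ} (hR : 0 ≤ R) (h : sp L R = ⊤) :
    ((bx L R).ncard : ℝ) * Real.sqrt |(discr L : ℝ)| ≤ 3 ^ n * (n.factorial * R ^ n) := by
  classical
  have hne : Nonempty (Fin n) := ⟨⟨0, by omega⟩⟩
  have hfin := bx_finite (L := L) R
  -- a basis in the box
  have hex : ∃ s : Fin n → bx L R, Algebra.discr ℚ (fun i => ((s i : 𝓞 L) : L)) ≠ 0 := by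
    obtain ⟨b, hb1, hb2, hb3⟩ := exists_linearIndependent ℚ ((fun x : 𝓞 L => (x : L)) '' bx L R)
    have hb4 : Submodule.span ℚ b = ⊤ := by rw [hb2]; exact h
    let B : Basis b ℚ L := Basis.mk hb3 (by rw [Subtype.range_coe]; exact hb4.ge)
    have hbf : Finite b := (Module.Finite.finite_basis B)
    have : Fintype b := Fintype.ofFinite b
    have hcard : Fintype.card b = n := by rw [← hn, finrank_eq_card_basis B]
    let e : b ≃ Fin n := Fintype.equivFinOfCardEq hcard
    have hmem : ∀ i : Fin n, ∃ x : bx L R, ((x : 𝓞 L) : L) = ((e.symm i : b) : L) := by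
      intro i
      obtain ⟨x, hx, hx2⟩ := hb1 (e.symm i).2
      exact ⟨⟨x, hx⟩, hx2⟩
    choose s hs using hmem
    refine ⟨s, ?_⟩
    have h2 : (fun i => ((s i : 𝓞 L) : L)) = B.reindex e := by
      funext i
      rw [hs i, Basis.reindex_apply]
      simp [B]
    rw [h2]
    exact Algebra.discr_not_zero_of_basis ℚ _
  -- the maximal one
  have hfin' : Finite (bx L R) := hfin.to_subtype
  obtain ⟨s₀, hs₀⟩ := hex
  have hne2 : Nonempty (Fin n → bx L R) := ⟨s₀⟩
  obtain ⟨s, hs⟩ := Finite.exists_max fun s : Fin n → bx L R =>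
    |Algebra.discr ℚ (fun i => ((s i : 𝓞 L) : L))|
  have hsne : Algebra.discr ℚ (fun i => ((s i : 𝓞 L) : L)) ≠ 0 := by
    intro h0
    have := hs s₀
    rw [h0, abs_zero] at this
    exact hs₀ (abs_nonpos_iff.1 this)
  have hli : LinearIndependent ℚ (fun i => ((s i : 𝓞 L) : L)) := by
    by_contra hcon
    exact hsne (Algebra.discr_zero_of_not_linearIndependent ℚ hcon)
  let b : Basis (Fin n) ℚ L := basisOfLinearIndependentOfCardEqFinrank hli (by simp [hn])
  have hb : ∀ i, b i = ((s i : 𝓞 L) : L) := fun i => by simp [b]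
  -- the coefficients are at most one
  have hcoef : ∀ x ∈ bx L R, ∀ i, |b.repr (x : L) i| ≤ 1 := by
    intro x hx i
    have h1 := hs (Function.update s i ⟨x, hx⟩)
    have h2 : (fun j => (((Function.update s i ⟨x, hx⟩ : Fin n → bx L R) j : 𝓞 L) : L)) =
        Matrix.mulVec ((Matrix.updateRow (1 : Matrix (Fin n) (Fin n) ℚ) i (fun j => b.repr (x : L) j)).map
          (algebraMap ℚ L)) (fun j => ((s j : 𝓞 L) : L)) := by
      funext j
      by_cases hj : j = i
      · subst hj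
        simp only [Function.update_self, Matrix.mulVec, dotProduct, Matrix.map_apply,
          Matrix.updateRow_self]
        conv_lhs => rw [← b.sum_repr (x : L)]
        refine Finset.sum_congr rfl fun k _ => ?_
        rw [Algebra.smul_def, hb]
      · simp only [Function.update_of_ne hj, Matrix.mulVec, dotProduct, Matrix.map_apply,
          Matrix.updateRow_ne hj, Matrix.one_apply]
        rw [Finset.sum_eq_single j]
        · simp
        · intro k _ hk
          rw [if_neg (Ne.symm hk)]; simp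
        · simp
    rw [h2, Algebra.discr_of_matrix_mulVec] at h1
    have h3 : (Matrix.updateRow (1 : Matrix (Fin n) (Fin n) ℚ) i (fun j => b.repr (x : L) j)).det =
        b.repr (x : L) i := by
      have h4 := Matrix.det_updateRow_sum (1 : Matrix (Fin n) (Fin n) ℚ) i (fun j => b.repr (x : L) j)
      rw [Matrix.det_one, smul_eq_mul, mul_one] at h4
      rw [← h4]
      congr 2
      funext j
      simp [Finset.sum_apply, Matrix.one_apply]
    rw [h3, abs_mul, abs_pow] at h1
    have h5 : 0 < |Algebra.discr ℚ (fun i => ((s i : 𝓞 L) : L))| := abs_pos.2 hsne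
    have h6 : |b.repr (x : L) i| ^ 2 ≤ 1 := by
      by_contra hcon
      push Not at hcon
      nlinarith
    nlinarith [abs_nonneg (b.repr (x : L) i)]
  -- the lattice
  let bL : Basis (Fin n) ℤ (𝓞 L) := (RingOfIntegers.basis L).reindex
    (Fintype.equivFinOfCardEq (by rw [← finrank_eq_card_basis (RingOfIntegers.basis L), RingOfIntegers.rank, hn]))
  let Λ : Submodule ℤ (𝓞 L) := Submodule.span ℤ (Set.range fun i => (s i : 𝓞 L))
  have hliZ : LinearIndependent ℤ (fun i => (s i : 𝓞 L)) := by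
    have h1 : LinearIndependent ℤ (fun i => ((s i : 𝓞 L) : L)) :=
      (LinearIndependent.iff_fractionRing ℤ ℚ).2 hli
    exact LinearIndependent.of_comp (Algebra.linearMap (𝓞 L) L |>.restrictScalars ℤ) h1
  let bΛ : Basis (Fin n) ℤ Λ := Basis.span hliZ
  have hbΛ : ∀ i, (bΛ i : 𝓞 L) = s i := fun i => by
    simp only [bΛ]; rw [Basis.span_apply]
  have hidx := Submodule.natAbs_det_basis_change bL Λ bΛ
  have hcomp : (Subtype.val ∘ ⇑bΛ : Fin n → 𝓞 L) = fun i => (s i : 𝓞 L) := by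
    funext i; exact hbΛ i
  rw [hcomp] at hidx
  -- the discriminant
  have hdL : Algebra.discr ℚ (fun j => ((bL j : 𝓞 L) : L)) = (discr L : ℚ) := by
    have h0 : (fun j => ((bL j : 𝓞 L) : L)) = (integralBasis L) ∘
        (Fintype.equivFinOfCardEq (by rw [← finrank_eq_card_basis (RingOfIntegers.basis L), RingOfIntegers.rank, hn])).symm := by
      funext j
      rw [Function.comp_apply, integralBasis_apply]
      simp only [bL, Basis.reindex_apply]
    rw [h0, Algebra.discr_reindex, coe_discr]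
  have hdisc : Algebra.discr ℚ (fun i => ((s i : 𝓞 L) : L)) =
      ((bL.det (fun i => (s i : 𝓞 L)) : ℤ) : ℚ) ^ 2 * (discr L : ℚ) := by
    have h1 : (fun i => ((s i : 𝓞 L) : L)) =
        Matrix.mulVec ((((bL.toMatrix (fun i => (s i : 𝓞 L))).transpose).map
          (Int.castRingHom ℚ)).map (algebraMap ℚ L)) (fun j => ((bL j : 𝓞 L) : L)) := by
      funext i
      simp only [Matrix.mulVec, dotProduct, Matrix.map_apply, Matrix.transpose_apply,
        Basis.toMatrix_apply]
      have h5 := congrArg (fun z : 𝓞 L => algebraMap (𝓞 L) L z) (bL.sum_repr (s i : 𝓞 L)).symm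
      simp only [map_sum, zsmul_eq_mul, map_mul, map_intCast] at h5
      refine h5.trans ?_
      refine Finset.sum_congr rfl fun k _ => ?_
      simp
    rw [h1, Algebra.discr_of_matrix_mulVec, hdL, ← RingHom.mapMatrix_apply, ← RingHom.map_det,
      Matrix.det_transpose, Basis.det_apply]
    rfl
  have hbd : |(Algebra.discr ℚ (fun i => ((s i : 𝓞 L) : L)) : ℝ)| ≤ (n.factorial * R ^ n) ^ 2 := by
    have hc : Fintype.card (L →ₐ[ℚ] ℂ) = n := by rw [AlgHom.card, hn]
    let e : Fin n ≃ (L →ₐ[ℚ] ℂ) := (Fintype.equivFinOfCardEq hc).symm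
    have h1 := Algebra.discr_eq_det_embeddingsMatrixReindex_pow_two ℚ ℂ (fun i => ((s i : 𝓞 L) : L)) e
    have h2 : (NormedField.toAbsoluteValue ℂ)
        (Algebra.embeddingsMatrixReindex ℚ ℂ (fun i => ((s i : 𝓞 L) : L)) e).det ≤
        (Fintype.card (Fin n)).factorial • R ^ (Fintype.card (Fin n)) := by
      refine Matrix.det_le fun i j => ?_
      have h3 := (s i).2 (InfinitePlace.mk ((e j : L →ₐ[ℚ] ℂ) : L →+* ℂ))
      rw [InfinitePlace.apply] at h3
      exact h3
    rw [Fintype.card_fin, nsmul_eq_mul] at h2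
    have h3 : ‖(Algebra.embeddingsMatrixReindex ℚ ℂ (fun i => ((s i : 𝓞 L) : L)) e).det‖ ≤
      n.factorial * R ^ n := h2
    have h4 : ‖((Algebra.discr ℚ (fun i => ((s i : 𝓞 L) : L)) : ℚ) : ℂ)‖ ≤ (n.factorial * R ^ n) ^ 2 := by
      have h5 : ((Algebra.discr ℚ (fun i => ((s i : 𝓞 L) : L)) : ℚ) : ℂ) = _ := h1
      rw [h5, norm_pow]
      exact pow_le_pow_left₀ (norm_nonneg _) h3 2
    have h5 : ‖((Algebra.discr ℚ (fun i => ((s i : 𝓞 L) : L)) : ℚ) : ℂ)‖ =
        |(Algebra.discr ℚ (fun i => ((s i : 𝓞 L) : L)) : ℝ)| := by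
      rw [← Complex.ofReal_ratCast, Complex.norm_real, Real.norm_eq_abs]
    rw [h5] at h4
    exact h4
  -- the index
  set I : ℕ := Nat.card (𝓞 L ⧸ Λ) with hI
  have hI2 : (I : ℝ) * Real.sqrt |(discr L : ℝ)| ≤ n.factorial * R ^ n := by
    have h1 : ((I : ℝ) * Real.sqrt |(discr L : ℝ)|) ^ 2 ≤ (n.factorial * R ^ n) ^ 2 := by
      refine le_trans (le_of_eq ?_) hbd
      rw [hdisc]
      push_cast
      rw [mul_pow, Real.sq_sqrt (abs_nonneg _), abs_mul, abs_pow]
      congr 2
      rw [← hidx, Nat.cast_natAbs]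
      push_cast
      rfl
    exact (abs_le_of_sq_le_sq' h1 (by positivity)).2
  -- counting
  have hI0 : I ≠ 0 := by
    intro h0
    rw [← hidx, Int.natAbs_eq_zero] at h0
    apply hsne
    rw [hdisc, h0]; simp
  have hfinQ : Finite (𝓞 L ⧸ Λ) := (Nat.card_pos_iff.1 (Nat.pos_of_ne_zero hI0)).2
  have hcount : (bx L R).ncard ≤ 3 ^ n * I := by
    have := Fintype.ofFinite (𝓞 L ⧸ Λ)
    rw [Set.ncard_eq_toFinset_card _ hfin]
    let q : 𝓞 L → 𝓞 L ⧸ Λ := Submodule.Quotient.mk
    have h1 : hfin.toFinset.card ≤ 3 ^ n * (hfin.toFinset.image q).card := by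
      refine Finset.card_le_mul_card_image _ _ fun c hc => ?_
      rw [Finset.mem_image] at hc
      obtain ⟨x₀, hx₀, rfl⟩ := hc
      rw [Set.Finite.mem_toFinset] at hx₀
      have hint : ∀ x : 𝓞 L, q x = q x₀ → ∃ k : Fin n → ℤ, ∀ i,
          b.repr (x : L) i = b.repr (x₀ : L) i + k i := by
        intro x hx
        have h2 : x - x₀ ∈ Λ := (Submodule.Quotient.eq Λ).1 hx
        refine ⟨fun i => bΛ.repr ⟨x - x₀, h2⟩ i, fun i => ?_⟩
        have h3 : x - x₀ = ∑ k, (bΛ.repr ⟨x - x₀, h2⟩ k) • (s k : 𝓞 L) := by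
          have h4 := congrArg (fun z : Λ => (z : 𝓞 L)) (bΛ.sum_repr ⟨x - x₀, h2⟩)
          simp only [Submodule.coe_sum, Submodule.coe_smul, hbΛ] at h4
          exact h4.symm
        have h4 : (x : L) - (x₀ : L) = ∑ k, ((bΛ.repr ⟨x - x₀, h2⟩ k : ℤ) : ℚ) • b k := by
          have h5 := congrArg (fun z : 𝓞 L => (z : L)) h3
          simp only [map_sub, map_sum, zsmul_eq_mul, map_mul, map_intCast] at h5
          rw [h5]
          refine Finset.sum_congr rfl fun k _ => ?_
          rw [Algebra.smul_def, hb]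
          simp
        have h5 : b.repr ((x : L) - (x₀ : L)) i = ((bΛ.repr ⟨x - x₀, h2⟩ i : ℤ) : ℚ) := by
          rw [h4, b.repr_sum_self]
        rw [map_sub, Finsupp.sub_apply] at h5
        linarith
      let c : Fin n → ℚ := fun i => b.repr (x₀ : L) i
      let T : Finset (Fin n → ℤ) := Fintype.piFinset fun i => Finset.Icc ⌈-1 - c i⌉ ⌊1 - c i⌋
      have hT : T.card ≤ 3 ^ n := by
        rw [Fintype.card_piFinset]
        calc ∏ i : Fin n, (Finset.Icc ⌈-1 - c i⌉ ⌊1 - c i⌋).card ≤ ∏ _i : Fin n, 3 := by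
              refine Finset.prod_le_prod' fun i _ => ?_
              rw [Int.card_Icc]
              have h6 : (⌊1 - c i⌋ : ℚ) ≤ 1 - c i := Int.floor_le _
              have h7 : -1 - c i ≤ (⌈-1 - c i⌉ : ℚ) := Int.le_ceil _
              have h8 : ((⌊1 - c i⌋ - ⌈-1 - c i⌉ : ℤ) : ℚ) ≤ 2 := by push_cast; linarith
              have h9 : ⌊1 - c i⌋ - ⌈-1 - c i⌉ ≤ 2 := by exact_mod_cast h8
              omega
          _ = 3 ^ n := by simp
      refine le_trans (Finset.card_le_card_of_injOn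
        (fun x : 𝓞 L => fun i => ⌊b.repr (x : L) i - c i⌋) ?_ ?_) hT
      · intro x hx
        rw [Finset.mem_coe, Finset.mem_filter, Set.Finite.mem_toFinset] at hx
        obtain ⟨k, hk⟩ := hint x hx.2
        rw [Finset.mem_coe, Fintype.mem_piFinset]
        intro i
        have h6 : b.repr (x : L) i - c i = k i := by rw [hk i]; ring
        simp only [h6, Int.floor_intCast]
        have h7 := abs_le.1 (hcoef x hx.1 i)
        rw [Finset.mem_Icc, Int.ceil_le, Int.le_floor, ← h6]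
        constructor <;> linarith
      · intro x hx y hy hxy
        rw [Finset.mem_coe, Finset.mem_filter, Set.Finite.mem_toFinset] at hx hy
        obtain ⟨k, hk⟩ := hint x hx.2
        obtain ⟨k', hk'⟩ := hint y hy.2
        have h6 : ∀ i, k i = k' i := by
          intro i
          have h7 := congrFun hxy i
          have h8 : b.repr (x : L) i - c i = k i := by rw [hk i]; ring
          have h9 : b.repr (y : L) i - c i = k' i := by rw [hk' i]; ring
          simp only [h8, h9, Int.floor_intCast] at h7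
          exact h7
        have h7 : (x : L) = (y : L) := by
          apply b.repr.injective
          ext i
          rw [hk i, hk' i, h6 i]
        exact RingOfIntegers.ext h7
    refine h1.trans (Nat.mul_le_mul_left _ ?_)
    rw [hI, Nat.card_eq_fintype_card]
    exact Finset.card_le_univ _
  have hsq : 0 ≤ Real.sqrt |(discr L : ℝ)| := Real.sqrt_nonneg _
  calc ((bx L R).ncard : ℝ) * Real.sqrt |(discr L : ℝ)|
      ≤ (3 ^ n * I : ℕ) * Real.sqrt |(discr L : ℝ)| := by
        apply mul_le_mul_of_nonneg_right _ hsq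
        exact_mod_cast hcount
    _ = 3 ^ n * (I * Real.sqrt |(discr L : ℝ)|) := by push_cast; ring
    _ ≤ 3 ^ n * (n.factorial * R ^ n) := by
        apply mul_le_mul_of_nonneg_left hI2; positivity

/-- case B: the integers of the box do not span `L` -/
lemma caseB {n : ℕ} (hn : finrank ℚ L = n) {k : ℕ} (hk : 1 ≤ k) {t : ℝ} (ht : 1 ≤ t)
    (h : sp L (t ^ k) ≠ ⊤) :
    ((bx L (t ^ k)).ncard : ℝ) ^ 2 ≤ 9 ^ n * (3 * t) ^ ((k + 1) * n) := by
  have ht0 : 0 < t := by linarith
  set m : ℕ := ⌈2 * t⌉₊ with hm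
  have hm1 : 2 * t ≤ m := Nat.le_ceil _
  have hm2 : (m : ℝ) ≤ 3 * t := by
    have := Nat.ceil_lt_add_one (show 0 ≤ 2 * t by linarith)
    linarith
  have hm0 : 1 ≤ m := by
    have : (1 : ℝ) ≤ m := by linarith
    exact_mod_cast this
  have hmpos : (0 : ℝ) < m := by exact_mod_cast hm0
  have hind : ∀ j : ℕ, (bx L (t ^ j)).ncard ≤
      3 ^ n * m ^ (∑ i ∈ Finset.range j, dm L (t ^ (i + 1))) := by
    intro j
    induction j with
    | zero =>
      have h1 := step (L := L) 3 (by norm_num) (t ^ 0)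
      have h2 : (bx L (2 * t ^ 0 / (3 : ℕ))).ncard ≤ 1 := by
        rw [Set.ncard_le_one (bx_finite _)]
        intro a ha b hb
        have h3 : 2 * t ^ 0 / ((3 : ℕ) : ℝ) < 1 := by norm_num
        rw [bx_lt_one h3 ha, bx_lt_one h3 hb]
      have h3 : (3 : ℕ) ^ dm L (t ^ 0) ≤ 3 ^ n := Nat.pow_le_pow_right (by norm_num) (hn ▸ dm_le _)
      simp only [Finset.range_zero, Finset.sum_empty, pow_zero, mul_one] at *
      calc (bx L 1).ncard ≤ _ := h1
        _ ≤ 3 ^ n * 1 := Nat.mul_le_mul h3 h2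
        _ = _ := by simp
    | succ j ih =>
      have h1 := step (L := L) m hm0 (t ^ (j + 1))
      have h2 : bx L (2 * t ^ (j + 1) / m) ⊆ bx L (t ^ j) := by
        apply bx_mono
        rw [div_le_iff₀ hmpos, pow_succ]
        nlinarith [pow_pos ht0 j]
      have h3 := Set.ncard_le_ncard h2 (bx_finite _)
      rw [Finset.sum_range_succ]
      calc (bx L (t ^ (j + 1))).ncard ≤ m ^ dm L (t ^ (j + 1)) * (bx L (2 * t ^ (j + 1) / m)).ncard := h1
        _ ≤ m ^ dm L (t ^ (j + 1)) * (3 ^ n * m ^ (∑ i ∈ Finset.range j, dm L (t ^ (i + 1)))) :=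
            Nat.mul_le_mul_left _ (h3.trans ih)
        _ = 3 ^ n * m ^ (∑ i ∈ Finset.range j, dm L (t ^ (i + 1)) + dm L (t ^ (j + 1))) := by
            rw [pow_add]; ring
  -- the sum of the dimensions
  have hsum : 2 * ∑ i ∈ Finset.range k, dm L (t ^ (i + 1)) ≤ (k + 1) * n := by
    obtain ⟨l, rfl⟩ : ∃ l, k = l + 1 := ⟨k - 1, by omega⟩
    rw [Finset.sum_range_succ]
    have h1 : dm L (t ^ (l + 1)) ≤ n := hn ▸ dm_le _
    have h2 : ∑ i ∈ Finset.range l, (dm L (t ^ (i + 1)) + dm L (t ^ (l - 1 - i + 1))) ≤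
        ∑ _i ∈ Finset.range l, n := by
      refine Finset.sum_le_sum fun i hi => ?_
      rw [Finset.mem_range] at hi
      rw [← hn]
      refine dual (R := t ^ (l + 1)) (by positivity) (le_of_eq ?_) h
      rw [← pow_add]
      congr 1
      omega
    rw [Finset.sum_add_distrib, Finset.sum_range_reflect (fun i => dm L (t ^ (i + 1))) l,
      Finset.sum_const, Finset.card_range, smul_eq_mul] at h2
    nlinarith
  have h1 := hind k
  have h2 : ((bx L (t ^ k)).ncard : ℝ) ≤ 3 ^ n * (m : ℝ) ^ (∑ i ∈ Finset.range k, dm L (t ^ (i + 1))) := by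
    exact_mod_cast h1
  have hm1' : (1 : ℝ) ≤ m := by exact_mod_cast hm0
  calc ((bx L (t ^ k)).ncard : ℝ) ^ 2
      ≤ (3 ^ n * (m : ℝ) ^ (∑ i ∈ Finset.range k, dm L (t ^ (i + 1)))) ^ 2 :=
        pow_le_pow_left₀ (by positivity) h2 2
    _ = 9 ^ n * (m : ℝ) ^ (2 * ∑ i ∈ Finset.range k, dm L (t ^ (i + 1))) := by
        rw [mul_pow, ← pow_mul, ← pow_mul, mul_comm n 2, pow_mul, mul_comm _ 2]; norm_num
    _ ≤ 9 ^ n * (m : ℝ) ^ ((k + 1) * n) := by
        apply mul_le_mul_of_nonneg_left _ (by positivity)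
        exact pow_le_pow_right₀ hm1' hsum
    _ ≤ 9 ^ n * (3 * t) ^ ((k + 1) * n) := by
        apply mul_le_mul_of_nonneg_left _ (by positivity)
        exact pow_le_pow_left₀ (by positivity) hm2 _

theorem box_bound (n k : ℕ) (hn1 : 1 ≤ n) (hk : 1 ≤ k) (C0 : ℝ) (hC0 : 1 ≤ C0) : ∃ C : ℝ, 0 < C ∧
    ∀ (L : Type) [Field L] [NumberField L], Module.finrank ℚ L = n →
      ∀ S : Finset (𝓞 L), (∀ δ ∈ S, ∀ v : InfinitePlace L, v (δ : L) ≤ C0 * |(discr L : ℝ)| ^ (1 / n : ℝ)) →
        (S.card : ℝ) ≤ C * |(discr L : ℝ)| ^ (1 / 2 + 1 / (2 * k) : ℝ) := by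
  have hn0 : (0 : ℝ) < n := by exact_mod_cast hn1
  have hk0 : (0 : ℝ) < k := by exact_mod_cast hk
  set A : ℝ := 3 ^ n * (n.factorial * C0 ^ n) with hA
  set B : ℝ := 3 ^ n * 3 ^ ((k + 1) * n) * C0 ^ ((k + 1) * n) with hB
  have hC00 : 0 < C0 := by linarith
  have hA0 : 0 < A := by positivity
  have hB0 : 0 < B := by positivity
  refine ⟨A + B, by positivity, fun L _ _ hn S hS => ?_⟩
  set D : ℝ := |(discr L : ℝ)| with hD
  have hD1 : 1 ≤ D := by
    have h1 : discr L ≠ 0 := discr_ne_zero L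
    have h2 : (1 : ℤ) ≤ |discr L| := Int.one_le_abs h1
    rw [hD, ← Int.cast_abs]
    exact_mod_cast h2
  have hD0 : 0 < D := by linarith
  set R : ℝ := C0 * D ^ (1 / n : ℝ) with hR
  have hDn : 1 ≤ D ^ (1 / n : ℝ) := Real.one_le_rpow hD1 (by positivity)
  have hR1 : 1 ≤ R := by rw [hR]; nlinarith
  have hR0 : 0 < R := by linarith
  have hSle : (S.card : ℝ) ≤ (bx L R).ncard := by
    have h1 : (S : Set (𝓞 L)) ⊆ bx L R := fun δ hδ => hS δ hδ
    have h2 := Set.ncard_le_ncard h1 (bx_finite _)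
    rw [Set.ncard_coe_finset] at h2
    exact_mod_cast h2
  have hexp : (0 : ℝ) ≤ 1 / (2 * k) := by positivity
  have hRn : R ^ n = C0 ^ n * D := by
    rw [hR, mul_pow, ← Real.rpow_natCast (D ^ (1 / n : ℝ)) n, ← Real.rpow_mul hD0.le]
    rw [one_div_mul_cancel hn0.ne', Real.rpow_one]
  have hpow0 : 0 < D ^ (1 / 2 + 1 / (2 * k) : ℝ) := Real.rpow_pos_of_pos hD0 _
  refine hSle.trans ?_
  by_cases h : sp L R = ⊤
  · have h1 := caseA hn hn1 hR0.le h
    rw [← hD] at h1
    have hsq : 0 < Real.sqrt D := Real.sqrt_pos.2 hD0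
    have h2 : ((bx L R).ncard : ℝ) ≤ A * Real.sqrt D := by
      rw [hRn] at h1
      have h3 : 3 ^ n * (n.factorial * (C0 ^ n * D)) = A * Real.sqrt D * Real.sqrt D := by
        rw [mul_assoc, Real.mul_self_sqrt hD0.le, hA]; ring
      rw [h3] at h1
      exact le_of_mul_le_mul_right h1 hsq
    have h3 : Real.sqrt D ≤ D ^ (1 / 2 + 1 / (2 * k) : ℝ) := by
      rw [Real.sqrt_eq_rpow]
      exact Real.rpow_le_rpow_of_exponent_le hD1 (by linarith)
    calc ((bx L R).ncard : ℝ) ≤ A * Real.sqrt D := h2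
      _ ≤ A * D ^ (1 / 2 + 1 / (2 * k) : ℝ) := mul_le_mul_of_nonneg_left h3 hA0.le
      _ ≤ (A + B) * D ^ (1 / 2 + 1 / (2 * k) : ℝ) := by
          apply mul_le_mul_of_nonneg_right _ hpow0.le; linarith
  · set t : ℝ := R ^ (1 / k : ℝ) with ht
    have ht1 : 1 ≤ t := Real.one_le_rpow hR1 (by positivity)
    have htk : t ^ k = R := by
      rw [ht, ← Real.rpow_natCast, ← Real.rpow_mul hR0.le, one_div_mul_cancel hk0.ne', Real.rpow_one]
    have h1 := caseB (L := L) hn hk ht1 (by rw [htk]; exact h)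
    rw [htk] at h1
    have h2 : t ^ ((k + 1) * n) ≤ (C0 ^ ((k + 1) * n)) ^ 2 * (D ^ (1 / 2 + 1 / (2 * k) : ℝ)) ^ 2 := by
      have h3 : t ^ ((k + 1) * n) = (t ^ n) ^ (k + 1) := by rw [← pow_mul, mul_comm n]
      have h4 : t ^ n = (C0 ^ (n : ℝ)) ^ (1 / k : ℝ) * D ^ (1 / k : ℝ) := by
        rw [ht, ← Real.rpow_natCast, ← Real.rpow_mul hR0.le, mul_comm, Real.rpow_mul hR0.le,
          Real.rpow_natCast, hRn, Real.mul_rpow (by positivity) hD0.le, Real.rpow_natCast]
      rw [h3, h4, mul_pow]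
      have h5 : (D ^ (1 / k : ℝ)) ^ (k + 1) = (D ^ (1 / 2 + 1 / (2 * k) : ℝ)) ^ 2 := by
        rw [← Real.rpow_natCast, ← Real.rpow_natCast, ← Real.rpow_mul hD0.le, ← Real.rpow_mul hD0.le]
        congr 1
        push_cast
        field_simp
      rw [h5]
      apply mul_le_mul_of_nonneg_right _ (by positivity)
      have h6 : (1 : ℝ) ≤ C0 ^ (n : ℝ) := Real.one_le_rpow hC0 hn0.le
      have h7 : (C0 ^ (n : ℝ)) ^ (1 / k : ℝ) ≤ C0 ^ (n : ℝ) := by
        calc (C0 ^ (n : ℝ)) ^ (1 / k : ℝ) ≤ (C0 ^ (n : ℝ)) ^ (1 : ℝ) := by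
              apply Real.rpow_le_rpow_of_exponent_le h6
              rw [div_le_one hk0]
              exact_mod_cast hk
          _ = _ := Real.rpow_one _
      calc ((C0 ^ (n : ℝ)) ^ (1 / k : ℝ)) ^ (k + 1) ≤ (C0 ^ (n : ℝ)) ^ (k + 1) :=
            pow_le_pow_left₀ (by positivity) h7 _
        _ = C0 ^ ((k + 1) * n) := by rw [Real.rpow_natCast, ← pow_mul, mul_comm n]
        _ ≤ (C0 ^ ((k + 1) * n)) ^ 2 := by
            have : 1 ≤ C0 ^ ((k + 1) * n) := one_le_pow₀ hC0
            nlinarith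
    have h3 : ((bx L R).ncard : ℝ) ^ 2 ≤ (B * D ^ (1 / 2 + 1 / (2 * k) : ℝ)) ^ 2 := by
      refine h1.trans ?_
      rw [mul_pow 3 t]
      calc (9 : ℝ) ^ n * (3 ^ ((k + 1) * n) * t ^ ((k + 1) * n))
          ≤ 9 ^ n * (3 ^ ((k + 1) * n) * ((C0 ^ ((k + 1) * n)) ^ 2 * (D ^ (1 / 2 + 1 / (2 * k) : ℝ)) ^ 2)) := by
            apply mul_le_mul_of_nonneg_left _ (by positivity)
            apply mul_le_mul_of_nonneg_left h2 (by positivity)
        _ ≤ 9 ^ n * ((3 ^ ((k + 1) * n)) ^ 2 * ((C0 ^ ((k + 1) * n)) ^ 2 * (D ^ (1 / 2 + 1 / (2 * k) : ℝ)) ^ 2)) := by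
            apply mul_le_mul_of_nonneg_left _ (by positivity)
            apply mul_le_mul_of_nonneg_right _ (by positivity)
            have : (1 : ℝ) ≤ 3 ^ ((k + 1) * n) := one_le_pow₀ (by norm_num)
            nlinarith
        _ = (B * D ^ (1 / 2 + 1 / (2 * k) : ℝ)) ^ 2 := by
            rw [hB, show (9 : ℝ) = 3 ^ 2 by norm_num, ← pow_mul, mul_comm 2 n, pow_mul]; ring
    have h4 := (abs_le_of_sq_le_sq' h3 (by positivity)).2
    refine h4.trans ?_
    apply mul_le_mul_of_nonneg_right _ hpow0.le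
    linarith

end Pool.Agent.K1H65.BX
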